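import Pool.Agent.N641.VB.Stm

/-!
# Project VB, QUO: codes of quotients
-/

set_option autoImplicit false

namespace Pool.Agent.N216.VB.Q

open Pool.Agent.N641.VB

lemma DD_bot {B : Type} [BooleanAlgebra B] (n : ℕ) : DD (fun b : B => b = ⊥) n ⊥ := by
  cases n with
  | zero => exact rfl
  | succ n => exact ⟨∅, by simp, by simp⟩

theorem QUO : S_QUO := by
  classical
  intro A B _ _ π D0 hs hsup hsd hD
  have pbot : π ⊥ = ⊥ := by
    have h := hsd ⊥ ⊥
    rw [sdiff_self, sdiff_self] at h
    exact h
  have pmono : ∀ a b : A, a ≤ b → π a ≤ π b := by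
    intro a b h
    have h1 := hsup a b
    rw [sup_eq_right.2 h] at h1
    rw [h1]
    exact le_sup_left
  have psup : ∀ s : Finset A, π (s.sup id) = (s.image π).sup id := by
    intro s
    induction s using Finset.induction_on with
    | empty => simp [pbot]
    | insert a s _ ih =>
      rw [Finset.sup_insert, Finset.image_insert, Finset.sup_insert, hsup, ih]
      rfl
  have lift : ∀ (a : A) (c : B), c ≤ π a → ∃ b ≤ a, π b = c := by
    intro a c hc
    obtain ⟨b0, hb0⟩ := hs c
    refine ⟨a \ (a \ b0), sdiff_le, ?_⟩
    rw [hsd, hsd, hb0, sdiff_sdiff_right_self]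
    exact inf_eq_right.2 hc
  have h1 : ∀ n a, DD D0 n a ↔ DD (fun b : B => b = ⊥) n (π a) := by
    intro n
    induction n with
    | zero =>
      intro a
      exact hD a
    | succ n ih =>
      intro a
      constructor
      · rintro ⟨s, hs1, hs2⟩
        refine ⟨s.image π, ?_, ?_⟩
        · intro c' hc' d' hd'
          obtain ⟨c, hc, rfl⟩ := Finset.mem_image.1 hc'
          obtain ⟨d, hd, rfl⟩ := lift c d' hd'
          rcases hs1 c hc d hd with h | h
          · exact Or.inl ((ih d).1 h)
          · right
            rw [← hsd]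
            exact (ih _).1 h
        · rw [← psup]
          exact pmono _ _ hs2
      · rintro ⟨s', hs1, hs2⟩
        choose l hl using hs
        refine ⟨insert (a \ (s'.image l).sup id) (s'.image l), ?_, ?_⟩
        · intro c hc d hd
          rcases Finset.mem_insert.1 hc with hc | hc
          · left
            rw [ih]
            have h2 : π d = ⊥ := by
              rw [← le_bot_iff]
              refine (pmono _ _ hd).trans ?_
              rw [hc, hsd, psup, Finset.image_image]
              have h3 : s'.image (π ∘ l) = s' := by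
                have : s'.image (π ∘ l) = s'.image id := by
                  refine Finset.image_congr fun x _ => hl x
                rw [this, Finset.image_id]
              rw [h3, sdiff_eq_bot_iff.2 hs2]
            rw [h2]
            exact DD_bot n
          · obtain ⟨c', hc', rfl⟩ := Finset.mem_image.1 hc
            have h2 : π d ≤ c' := by
              have := pmono _ _ hd
              rwa [hl] at this
            rcases hs1 c' hc' (π d) h2 with h | h
            · exact Or.inl ((ih d).2 h)
            · right
              rw [ih, hsd, hl]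
              exact h
        · rw [Finset.sup_insert]
          change a ≤ (a \ (s'.image l).sup id) ⊔ (s'.image l).sup id
          rw [sdiff_sup_self]
          exact le_sup_left
  have h2 : ∀ n a, AL D0 n a ↔ AL (fun b : B => b = ⊥) n (π a) := by
    intro n a
    constructor
    · intro h c' hc' hn
      obtain ⟨c, hc, rfl⟩ := lift a c' hc'
      obtain ⟨d, hd, h3, h4⟩ := h c hc (fun h5 => hn ((h1 n c).1 h5))
      refine ⟨π d, pmono _ _ hd, fun h5 => h3 ((h1 n d).2 h5), fun h5 => h4 ?_⟩
      rw [h1, hsd]
      exact h5
    · intro h c hc hn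
      obtain ⟨d', hd', h3, h4⟩ := h (π c) (pmono _ _ hc) (fun h5 => hn ((h1 n c).2 h5))
      obtain ⟨d, hd, rfl⟩ := lift c d' hd'
      refine ⟨d, hd, fun h5 => h3 ((h1 n d).1 h5), fun h5 => h4 ?_⟩
      rw [← hsd]
      exact (h1 n _).1 h5
  refine ⟨h1, h2, ?_⟩
  have h3 : ∀ n a, PP D0 n a ↔ PP (fun b : B => b = ⊥) n (π a) := by
    intro n a
    unfold PP
    refine and_congr (not_congr (h1 n a)) (and_congr (h2 n a) ?_)
    constructor
    · intro h c' hc' m hm hal
      obtain ⟨c, hc, rfl⟩ := lift a c' hc'
      exact (h1 n c).1 (h c hc m hm ((h2 m c).2 hal))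
    · intro h c hc m hm hal
      exact (h1 n c).2 (h (π c) (pmono _ _ hc) m hm ((h2 m c).1 hal))
  intro a
  ext n
  constructor
  · rintro ⟨b, hb, h⟩
    exact ⟨π b, pmono _ _ hb, (h3 n b).1 h⟩
  · rintro ⟨b', hb', h⟩
    obtain ⟨b, hb, rfl⟩ := lift a b' hb'
    exact ⟨b, hb, (h3 n b).2 h⟩

end Pool.Agent.N216.VB.Q
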